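import Pool.Agent.H5.FR2.Stmts
import Pool.Agent.H5.FR.OWN

/-!
# URB, module OWN: a random distribution of a regular block is fine
-/

set_option autoImplicit false

namespace Pool.Agent.H5.FR2

open Finset Pool.Agent.H5.FR Pool.Agent.H80

theorem own_wq {V : Type} [DecidableEq V] {b : ℕ} (x : V → ℝ) (c : Finset V) (g : V → Fin b)
    (k : Fin b) :
    ∑ v ∈ c, (x v ^ 2) * ((if g v = k then 1 else 0) - 1 / (b : ℝ)) =
      wq x (part c g k) - wq x c / b := by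
  simp only [mul_sub, sum_sub_distrib, wq, part, mul_ite, mul_one, mul_zero]
  rw [Finset.sum_filter, ← Finset.sum_mul]
  ring

theorem own_ws {V : Type} [DecidableEq V] {b : ℕ} (x : V → ℝ) (c : Finset V) (g : V → Fin b)
    (k : Fin b) :
    ∑ v ∈ c, (x v) * ((if g v = k then 1 else 0) - 1 / (b : ℝ)) =
      ws x (part c g k) - ws x c / b := by
  simp only [mul_sub, sum_sub_distrib, ws, part, mul_ite, mul_one, mul_zero]
  rw [Finset.sum_filter, ← Finset.sum_mul]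
  ring

/-- masses from squares -/
theorem own_mass2 {b : ℕ} (s : Fin b → ℝ) (S a a' q : ℝ) (ha : 0 < a)
    (hS : ∑ k, s k = S) (hSb : |S| ≤ a') (hk : ∀ k, |s k| ≤ a) (hq : q / 2 ≤ ∑ k, s k ^ 2)
    (h3 : 6 * a' * a < q) : a' < ∑ k, max (s k) 0 := by
  have h1 : ∑ k, s k ^ 2 ≤ a * ∑ k, |s k| := by
    rw [Finset.mul_sum]
    refine Finset.sum_le_sum (fun k _ => ?_)
    have := hk k
    have h0 := abs_nonneg (s k)
    calc s k ^ 2 = |s k| * |s k| := by rw [← sq_abs]; ring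
      _ ≤ a * |s k| := by gcongr
  have h2 : ∀ k, max (s k) 0 = (|s k| + s k) / 2 := by
    intro k
    rcases le_total 0 (s k) with h | h
    · rw [max_eq_left h, abs_of_nonneg h]; ring
    · rw [max_eq_right h, abs_of_nonpos h]; ring
  have h4 : ∑ k, max (s k) 0 = (∑ k, |s k| + S) / 2 := by
    rw [← hS, ← Finset.sum_add_distrib, Finset.sum_div]
    exact Finset.sum_congr rfl (fun k _ => h2 k)
  rw [h4]
  have h5 : -a' ≤ S := (abs_le.mp hSb).1
  have h6 : a * (3 * a') < a * ∑ k, |s k| := by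
    have : q / 2 ≤ a * ∑ k, |s k| := hq.trans h1
    nlinarith
  have h7 := lt_of_mul_lt_mul_left h6 ha.le
  linarith

theorem own_n1 {L B w N : ℝ} (hL : 1 ≤ L) (hB : 13 ≤ B) (hw : 8 * L ≤ w)
    (h : N - (w * B) ^ 2 ≤ L * (w * B)) : N ≤ 97 / 96 * (w * B) ^ 2 := by
  have hw0 : 0 < w := by linarith
  have hwB : 0 < w * B := by positivity
  have h1 : 96 * L ≤ w * B := by nlinarith
  nlinarith

theorem own_n2 {L B ρ P q : ℝ} (hL : 1 ≤ L) (hB : 13 ≤ B) (hρ : 0 < ρ) (hρL : 2 * L ≤ ρ)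
    (hρ2 : ρ ^ 2 = P + 4 * L ^ 2) (h : q / B ^ 2 - P ≤ L * ρ / B) (h' : L * ρ / B ≤ L * ρ / 12) :
    q / B ^ 2 ≤ 2 * ρ ^ 2 := by
  have h2 : L * ρ ≤ ρ ^ 2 / 2 := by nlinarith
  have h3 : 0 ≤ L ^ 2 := sq_nonneg L
  have h4 : 0 ≤ ρ ^ 2 := sq_nonneg ρ
  have h5 : L * ρ / B ≤ ρ ^ 2 / 24 := by linarith
  linarith

theorem own_n3 {L B P : ℝ} (hB : 13 ≤ B) (hP0 : 0 ≤ P) (h : 4 * L ^ 2 ≤ P) :
    (P + 4 * L ^ 2) * (P * B ^ 2 + 4 * L ^ 2) ≤ (71 / 50 * (P * B)) ^ 2 := by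
  have g2 : P + 4 * L ^ 2 ≤ 2 * P := by linarith
  have g3 : P * B ^ 2 + 4 * L ^ 2 ≤ P * (B ^ 2 + 1) := by linarith
  have g4 : 0 ≤ P * B ^ 2 + 4 * L ^ 2 := by positivity
  calc (P + 4 * L ^ 2) * (P * B ^ 2 + 4 * L ^ 2) ≤ (2 * P) * (P * (B ^ 2 + 1)) :=
        mul_le_mul g2 g3 g4 (by positivity)
    _ = P ^ 2 * (2 * (B ^ 2 + 1)) := by ring
    _ ≤ P ^ 2 * ((71 / 50) ^ 2 * B ^ 2) :=
        mul_le_mul_of_nonneg_left (by nlinarith) (sq_nonneg P)
    _ = _ := by ring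

theorem own_n4 {L B P : ℝ} (hB : 13 ≤ B) (hP0 : 0 ≤ P) (h : 4 * L ^ 2 ≤ P) :
    L ^ 2 * (P * B ^ 2 + 4 * L ^ 2) ≤ (51 / 100 * (P * B)) ^ 2 := by
  have g3 : P * B ^ 2 + 4 * L ^ 2 ≤ P * (B ^ 2 + 1) := by linarith
  have g4 : 0 ≤ P * B ^ 2 + 4 * L ^ 2 := by positivity
  calc L ^ 2 * (P * B ^ 2 + 4 * L ^ 2) ≤ (P / 4) * (P * (B ^ 2 + 1)) :=
        mul_le_mul (by linarith) g3 g4 (by positivity)
    _ = P ^ 2 * ((B ^ 2 + 1) / 4) := by ring
    _ ≤ P ^ 2 * ((51 / 100) ^ 2 * B ^ 2) :=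
        mul_le_mul_of_nonneg_left (by nlinarith) (sq_nonneg P)
    _ = _ := by ring

theorem own_n5 {L B P ρ ρ' q : ℝ} (hL : 1 ≤ L) (hB : 13 ≤ B) (hB12 : 12 * L ^ 2 < B)
    (hρ : 0 < ρ) (hρ' : 0 < ρ') (hP : 0 < P)
    (hρ2 : ρ ^ 2 = P + 4 * L ^ 2) (hρ2' : ρ' ^ 2 = P * B ^ 2 + 4 * L ^ 2)
    (h : 4 * L ^ 2 ≤ P) (hq : -(L * ρ') ≤ q - P * B ^ 2) : 6 * (L * ρ') * (L * ρ) < q := by
  have hB0 : 0 < B := by linarith
  have g1 : ρ * ρ' ≤ 71 / 50 * (P * B) := by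
    rw [← pow_le_pow_iff_left₀ (by positivity) (by positivity) (two_ne_zero), mul_pow, hρ2',
      hρ2]
    exact own_n3 hB hP.le h
  have g4 : L * ρ' ≤ 51 / 100 * (P * B) := by
    rw [← pow_le_pow_iff_left₀ (by positivity) (by positivity) (two_ne_zero), mul_pow, hρ2']
    exact own_n4 hB hP.le h
  have g5 : 6 * (L * ρ') * (L * ρ) ≤ 71 / 100 * (P * B ^ 2) := by
    calc 6 * (L * ρ') * (L * ρ) = 6 * L ^ 2 * (ρ * ρ') := by ring
      _ ≤ B / 2 * (71 / 50 * (P * B)) :=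
          mul_le_mul (by linarith) g1 (by positivity) (by positivity)
      _ = _ := by ring
  have g6 : P * B ≤ P * B ^ 2 / 13 := by
    rw [le_div_iff₀ (by norm_num)]
    have := mul_le_mul_of_nonneg_left hB (mul_pos hP hB0).le
    calc P * B * 13 ≤ P * B * B := this
      _ = _ := by ring
  have g7 : 0 < P * B ^ 2 := by positivity
  linarith

theorem own_n6 {L B P ρ ρ' : ℝ} (hB : 13 ≤ B) (hρ : 0 < ρ) (hρ' : 0 < ρ')
    (hρ2 : ρ ^ 2 = P + 4 * L ^ 2) (hρ2' : ρ' ^ 2 = P * B ^ 2 + 4 * L ^ 2) : ρ' ≤ B * ρ := by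
  rw [← pow_le_pow_iff_left₀ hρ'.le (by positivity) (two_ne_zero), mul_pow, hρ2', hρ2]
  have h1 : 1 ≤ B ^ 2 := by nlinarith
  have h2 : 4 * L ^ 2 * 1 ≤ 4 * L ^ 2 * B ^ 2 := mul_le_mul_of_nonneg_left h1 (by positivity)
  nlinarith

theorem own_thm (hBRN : Pool.Agent.H5.FR2.BRNStmt) (hCHB : Pool.Agent.H5.FR2.CHBStmt) :
    Pool.Agent.H5.FR2.OWNStmt := by
  intro V _ _ x hx lam β r hP w P hw hP0 c hc
  classical
  -- real parameters
  have hL : (1 : ℝ) ≤ lam := by exact_mod_cast hP.lam_pos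
  have hB12 : 12 * (lam : ℝ) ^ 2 < β := by exact_mod_cast hP.big
  have hβ13 : 13 ≤ β := by
    have h1 := hP.lam_pos
    have h2 := hP.big
    have h3 : 1 ≤ lam ^ 2 := Nat.one_le_pow _ _ h1
    omega
  have hB13 : (13 : ℝ) ≤ β := by exact_mod_cast hβ13
  have hw0 : 0 < w := by linarith
  have hb6 : 6 ≤ β ^ 2 := by nlinarith
  have hbR : ((β ^ 2 : ℕ) : ℝ) = (β : ℝ) ^ 2 := by push_cast; ring
  have hb0 : (0 : ℝ) < (β : ℝ) ^ 2 := by positivity
  obtain ⟨hN, hq, hs⟩ := hc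
  set N : ℝ := (c.card : ℝ) with hNdef
  set q : ℝ := wq x c with hqdef
  set S : ℝ := ws x c with hSdef
  set ρ : ℝ := rho lam P with hρdef
  set ρ' : ℝ := rho lam (P * (β : ℝ) ^ 2) with hρ'def
  set L : ℝ := (lam : ℝ) with hLdef
  set B : ℝ := (β : ℝ) with hBdef
  have hρ2 : ρ ^ 2 = P + 4 * L ^ 2 := by
    rw [hρdef, rho, Real.sq_sqrt (by positivity)]
  have hρ2' : ρ' ^ 2 = P * B ^ 2 + 4 * L ^ 2 := by
    rw [hρ'def, rho, Real.sq_sqrt (by positivity)]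
  have hρ0 : 0 < ρ := by
    rw [hρdef, rho]
    exact Real.sqrt_pos.mpr (by positivity)
  have hρ0' : 0 < ρ' := by
    rw [hρ'def, rho]
    exact Real.sqrt_pos.mpr (by positivity)
  have hρL : 2 * L ≤ ρ := by
    rw [hρdef, rho]
    apply Real.le_sqrt_of_sq_le
    nlinarith
  have hρρ : ρ' ≤ B * ρ := own_n6 hB13 hρ0 hρ0' hρ2 hρ2'
  have hwB : 0 < w * B := by positivity
  obtain ⟨hN1, hN2⟩ := abs_le.mp hN
  obtain ⟨hs1, hs2⟩ := abs_le.mp hs
  obtain ⟨hq1, hq2⟩ := abs_le.mp hq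
  -- bounds for N
  have hNup : N ≤ 97 / 96 * (w * B) ^ 2 := own_n1 hL hB13 hw hN2
  have hNb : N / B ^ 2 ≤ 97 / 96 * w ^ 2 := by
    rw [div_le_iff₀ hb0]
    calc N ≤ 97 / 96 * (w * B) ^ 2 := hNup
      _ = 97 / 96 * w ^ 2 * B ^ 2 := by ring
  have hdN : |N / B ^ 2 - w ^ 2| ≤ L * w / B := by
    have e : N / B ^ 2 - w ^ 2 = (N - (w * B) ^ 2) / B ^ 2 := by field_simp
    rw [e, abs_div, abs_of_pos hb0, div_le_div_iff₀ hb0 (by positivity)]
    calc |N - (w * B) ^ 2| * B ≤ (L * (w * B)) * B := by gcongr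
      _ = L * w * B ^ 2 := by ring
  have hdq : |q / B ^ 2 - P| ≤ L * ρ / B := by
    have e : q / B ^ 2 - P = (q - P * B ^ 2) / B ^ 2 := by field_simp
    rw [e, abs_div, abs_of_pos hb0, div_le_div_iff₀ hb0 (by positivity)]
    calc |q - P * B ^ 2| * B ≤ (L * (B * ρ)) * B := by
          gcongr
          exact hq.trans (by gcongr)
      _ = L * ρ * B ^ 2 := by ring
  have hdS : |S / B ^ 2| ≤ L * ρ / B := by
    rw [abs_div, abs_of_pos hb0, div_le_div_iff₀ hb0 (by positivity)]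
    calc |S| * B ≤ (L * (B * ρ)) * B := by
          gcongr
          exact hs.trans (by gcongr)
      _ = L * ρ * B ^ 2 := by ring
  have hsm : L * w / B ≤ L * w / 12 := by gcongr; linarith
  have hsmρ : L * ρ / B ≤ L * ρ / 12 := by gcongr; linarith
  have hLw : 0 < L * w := by positivity
  have hLρ : 0 < L * ρ := by positivity
  have hqb : q / B ^ 2 ≤ 2 * ρ ^ 2 :=
    own_n2 hL hB13 hρ0 hρL hρ2 (abs_le.mp hdq).2 hsmρ
  -- the events
  set T : ℝ := (Fintype.card (V → Fin (β ^ 2)) : ℝ) with hT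
  have hT0 : 0 ≤ T := by positivity
  let E : Fin (β ^ 2) → (V → ℝ) → ℝ → Finset (V → Fin (β ^ 2)) := fun k a τ =>
    univ.filter (fun g => τ ≤ ∑ v ∈ c, a v * ((if g v = k then 1 else 0) - 1 / ((β ^ 2 : ℕ) : ℝ)))
  have hE1 : ∀ (k : Fin (β ^ 2)) (a : V → ℝ), (∀ v, |a v| ≤ 1) →
      ((E k a (L * w / 2)).card : ℝ) ≤ Real.exp (-(L ^ 2 / 32)) * T := by
    intro k a ha
    have hθ1 : 0 ≤ L / (4 * w) := by positivity
    have hθ2 : L / (4 * w) ≤ 1 := by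
      rw [div_le_one (by positivity)]; linarith
    have := hBRN V (β ^ 2) (by omega) c a ha k (L / (4 * w)) (L * w / 2) hθ1 hθ2
    refine this.trans ?_
    refine mul_le_mul_of_nonneg_right (Real.exp_le_exp.mpr ?_) hT0
    rw [hbR]
    have e0 : ∑ v ∈ c, a v ^ 2 ≤ N := by
      rw [hNdef, ← nsmul_one, ← sum_const]
      refine sum_le_sum fun v _ => ?_
      rw [← sq_abs]
      exact pow_le_one₀ (abs_nonneg _) (ha v)
    have e1 : (L / (4 * w)) ^ 2 * (∑ v ∈ c, a v ^ 2) / B ^ 2 ≤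
        L ^ 2 / (16 * w ^ 2) * (N / B ^ 2) := by
      calc (L / (4 * w)) ^ 2 * (∑ v ∈ c, a v ^ 2) / B ^ 2 ≤ (L / (4 * w)) ^ 2 * N / B ^ 2 := by
            gcongr
        _ = _ := by field_simp; ring
    have e2 : L / (4 * w) * (L * w / 2) = L ^ 2 / 8 := by field_simp; ring
    rw [e2]
    have e3 : L ^ 2 / (16 * w ^ 2) * (N / B ^ 2) ≤ L ^ 2 / (16 * w ^ 2) * (97 / 96 * w ^ 2) := by
      gcongr
    have e4 : L ^ 2 / (16 * w ^ 2) * (97 / 96 * w ^ 2) = 97 / 1536 * L ^ 2 := by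
      field_simp; ring
    rw [e4] at e3
    have e5 : 0 ≤ L ^ 2 := sq_nonneg L
    linarith
  have hE2 : ∀ (k : Fin (β ^ 2)) (a : V → ℝ), (∀ v, |a v| ≤ 1) → ∑ v ∈ c, a v ^ 2 ≤ q →
      ((E k a (L * ρ / 2)).card : ℝ) ≤ Real.exp (-(L ^ 2 / 32)) * T := by
    intro k a ha haq
    have hθ1 : 0 ≤ L / (8 * ρ) := by positivity
    have hθ2 : L / (8 * ρ) ≤ 1 := by
      rw [div_le_one (by positivity)]; linarith
    have := hBRN V (β ^ 2) (by omega) c a ha k (L / (8 * ρ)) (L * ρ / 2) hθ1 hθ2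
    refine this.trans ?_
    refine mul_le_mul_of_nonneg_right (Real.exp_le_exp.mpr ?_) hT0
    rw [hbR]
    have e1 : (L / (8 * ρ)) ^ 2 * (∑ v ∈ c, a v ^ 2) / B ^ 2 ≤
        L ^ 2 / (64 * ρ ^ 2) * (q / B ^ 2) := by
      calc (L / (8 * ρ)) ^ 2 * (∑ v ∈ c, a v ^ 2) / B ^ 2 ≤ (L / (8 * ρ)) ^ 2 * q / B ^ 2 := by
            gcongr
        _ = _ := by field_simp; ring
    have e2 : L / (8 * ρ) * (L * ρ / 2) = L ^ 2 / 16 := by field_simp; ring
    rw [e2]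
    have e3 : L ^ 2 / (64 * ρ ^ 2) * (q / B ^ 2) ≤ L ^ 2 / (64 * ρ ^ 2) * (2 * ρ ^ 2) := by
      gcongr
    have e4 : L ^ 2 / (64 * ρ ^ 2) * (2 * ρ ^ 2) = L ^ 2 / 32 := by
      field_simp; ring
    rw [e4] at e3
    linarith
  let E0 : Finset (V → Fin (β ^ 2)) := univ.filter (fun g =>
      ∑ k, (ws x (part c g k)) ^ 2 < q / 2)
  have hE0 : (E0.card : ℝ) ≤ 18 / 169 * T := by
    have := hCHB V (β ^ 2) hb6 x c
    refine this.trans ?_
    refine mul_le_mul_of_nonneg_right ?_ hT0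
    rw [hbR]
    gcongr
    nlinarith
  let Ek : Fin (β ^ 2) → Finset (V → Fin (β ^ 2)) := fun k =>
    ((E k (fun _ => 1) (L * w / 2) ∪ E k (fun _ => -1) (L * w / 2)) ∪
      (E k (fun v => x v ^ 2) (L * ρ / 2) ∪ E k (fun v => -(x v ^ 2)) (L * ρ / 2))) ∪
      (E k (fun v => x v) (L * ρ / 2) ∪ E k (fun v => -(x v)) (L * ρ / 2))
  have hx2 : ∀ v, |x v ^ 2| ≤ 1 := by
    intro v
    rw [abs_pow]
    exact pow_le_one₀ (abs_nonneg _) (hx v)
  have hx4 : ∑ v ∈ c, (x v ^ 2) ^ 2 ≤ q := by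
    rw [hqdef, wq]
    refine sum_le_sum fun v _ => ?_
    have h1 : 0 ≤ x v ^ 2 := sq_nonneg _
    have h2 : x v ^ 2 ≤ 1 := (le_abs_self _).trans (hx2 v)
    nlinarith
  have hEk : ∀ k, ((Ek k).card : ℝ) ≤ 6 * (Real.exp (-(L ^ 2 / 32)) * T) := by
    intro k
    have a1 := hE1 k (fun _ => 1) (by simp)
    have a2 := hE1 k (fun _ => -1) (by simp)
    have a3 := hE2 k (fun v => x v ^ 2) hx2 hx4
    have a4 := hE2 k (fun v => -(x v ^ 2)) (by intro v; rw [abs_neg]; exact hx2 v)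
      (by simpa only [neg_sq] using hx4)
    have a5 := hE2 k (fun v => x v) hx le_rfl
    have a6 := hE2 k (fun v => -(x v)) (by intro v; rw [abs_neg]; exact hx v)
      (by simp only [neg_sq]; exact le_rfl)
    have b1 : (Ek k).card ≤ (((E k (fun _ => 1) (L * w / 2)).card +
        (E k (fun _ => -1) (L * w / 2)).card) +
        ((E k (fun v => x v ^ 2) (L * ρ / 2)).card +
          (E k (fun v => -(x v ^ 2)) (L * ρ / 2)).card)) +
        ((E k (fun v => x v) (L * ρ / 2)).card + (E k (fun v => -(x v)) (L * ρ / 2)).card) :=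
      (Finset.card_union_le _ _).trans
        (Nat.add_le_add ((Finset.card_union_le _ _).trans
          (Nat.add_le_add (Finset.card_union_le _ _) (Finset.card_union_le _ _)))
          (Finset.card_union_le _ _))
    have b2 : ((Ek k).card : ℝ) ≤ ((((E k (fun _ => 1) (L * w / 2)).card : ℝ) +
        (E k (fun _ => -1) (L * w / 2)).card) +
        ((E k (fun v => x v ^ 2) (L * ρ / 2)).card +
          (E k (fun v => -(x v ^ 2)) (L * ρ / 2)).card)) +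
        ((E k (fun v => x v) (L * ρ / 2)).card + (E k (fun v => -(x v)) (L * ρ / 2)).card) := by
      exact_mod_cast b1
    linarith
  have hU : ((univ.biUnion Ek).card : ℝ) ≤ 6 / 64 * T := by
    have c1 : (univ.biUnion Ek).card ≤ ∑ k, (Ek k).card := Finset.card_biUnion_le
    have c2 : ((univ.biUnion Ek).card : ℝ) ≤ ∑ k, ((Ek k).card : ℝ) := by exact_mod_cast c1
    have c3 : ∑ k, ((Ek k).card : ℝ) ≤ ∑ _k : Fin (β ^ 2), 6 * (Real.exp (-(L ^ 2 / 32)) * T) :=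
      Finset.sum_le_sum (fun k _ => hEk k)
    rw [Finset.sum_const, Finset.card_univ, Fintype.card_fin, nsmul_eq_mul, hbR] at c3
    have c4 := hP.tail
    have c5 : B ^ 2 * (6 * (Real.exp (-(L ^ 2 / 32)) * T)) =
        6 / 64 * ((64 * B ^ 2 * Real.exp (-(L ^ 2 / 32))) * T) := by ring
    rw [c5] at c3
    have c6 : (64 * B ^ 2 * Real.exp (-(L ^ 2 / 32))) * T ≤ 1 * T :=
      mul_le_mul_of_nonneg_right c4 hT0
    linarith
  -- inclusion
  have hincl : (univ.filter (fun g : V → Fin (β ^ 2) =>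
      ¬ ((4 * L ^ 2 ≤ P → Mass x c g (L * ρ')) ∧ ∀ k, Rng x lam w P (part c g k)))) ⊆
        E0 ∪ univ.biUnion Ek := by
    intro g hg
    rw [Finset.mem_filter] at hg
    by_contra hno
    apply hg.2
    rw [Finset.mem_union, not_or] at hno
    obtain ⟨h0, h1⟩ := hno
    have h0' : q / 2 ≤ ∑ k, (ws x (part c g k)) ^ 2 := by
      by_contra hcon
      exact h0 (Finset.mem_filter.mpr ⟨Finset.mem_univ _, not_le.mp hcon⟩)
    have h1' : ∀ k, g ∉ Ek k := by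
      intro k hk
      exact h1 (Finset.mem_biUnion.mpr ⟨k, Finset.mem_univ _, hk⟩)
    have hsum : ∀ k (a : V → ℝ) (τ : ℝ), g ∉ E k a τ →
        ∑ v ∈ c, a v * ((if g v = k then 1 else 0) - 1 / ((β ^ 2 : ℕ) : ℝ)) < τ := by
      intro k a τ hk
      by_contra hcon
      exact hk (Finset.mem_filter.mpr ⟨Finset.mem_univ _, not_lt.mp hcon⟩)
    have hR : ∀ k, Rng x lam w P (part c g k) := by
      intro k
      have hk := h1' k
      simp only [Ek, Finset.mem_union, not_or] at hk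
      obtain ⟨⟨⟨k1, k2⟩, k3, k4⟩, k5, k6⟩ := hk
      have m1 := hsum k _ _ k1
      have m2 := hsum k _ _ k2
      have m3 := hsum k _ _ k3
      have m4 := hsum k _ _ k4
      have m5 := hsum k _ _ k5
      have m6 := hsum k _ _ k6
      rw [own_neg (fun _ => 1)] at m2
      rw [own_neg (fun v => x v ^ 2)] at m4
      rw [own_neg (fun v => x v)] at m6
      rw [own_card, hbR] at m1 m2
      rw [own_wq, hbR] at m3 m4
      rw [own_ws, hbR] at m5 m6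
      obtain ⟨d1, d2⟩ := abs_le.mp hdN
      obtain ⟨d3, d4⟩ := abs_le.mp hdS
      obtain ⟨d5, d6⟩ := abs_le.mp hdq
      refine ⟨?_, ?_, ?_⟩
      · rw [abs_le]
        constructor <;> linarith
      · rw [abs_le]
        constructor <;> linarith
      · rw [abs_le]
        constructor <;> linarith
    refine ⟨fun hheavy => ?_, hR⟩
    have hSsum : ∑ k, ws x (part c g k) = S := by
      rw [hSdef]
      unfold ws part
      exact Finset.sum_fiberwise c g x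
    have hPpos : 0 < P := lt_of_lt_of_le (by positivity) hheavy
    have hkey : 6 * (L * ρ') * (L * ρ) < q :=
      own_n5 hL hB13 hB12 hρ0 hρ0' hPpos hρ2 hρ2' hheavy hq1
    constructor
    · exact own_mass2 (fun k => ws x (part c g k)) S (L * ρ) (L * ρ') q hLρ hSsum hs
        (fun k => (hR k).2.2) h0' hkey
    · refine own_mass2 (fun k => -(ws x (part c g k))) (-S) (L * ρ) (L * ρ') q hLρ ?_ ?_
        (fun k => ?_) ?_ hkey
      · rw [Finset.sum_neg_distrib, hSsum]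
      · rw [abs_neg]; exact hs
      · rw [abs_neg]; exact (hR k).2.2
      · simpa using h0'
  rw [Nat.card_eq_fintype_card, Fintype.card_subtype]
  have f1 : (univ.filter (fun g : V → Fin (β ^ 2) =>
      ¬ ((4 * L ^ 2 ≤ P → Mass x c g (L * ρ')) ∧
      ∀ k, Rng x lam w P (part c g k)))).card ≤ E0.card + (univ.biUnion Ek).card :=
    (Finset.card_le_card hincl).trans (Finset.card_union_le _ _)
  have f2 : ((univ.filter (fun g : V → Fin (β ^ 2) =>
      ¬ ((4 * L ^ 2 ≤ P → Mass x c g (L * ρ')) ∧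
      ∀ k, Rng x lam w P (part c g k)))).card : ℝ) ≤ (E0.card : ℝ) +
        ((univ.biUnion Ek).card : ℝ) := by exact_mod_cast f1
  refine f2.trans ?_
  linarith

end Pool.Agent.H5.FR2
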