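import Pool.Agent.H5.FR2.Stmts

/-!
# URB, module ROO: few random structures serve a finite set of weight functions
-/

set_option autoImplicit false

namespace Pool.Agent.H5.FR2

open Finset Pool.Agent.H5.FR Pool.Agent.H80

theorem roo_rho {lam : ℕ} {P : ℝ} (hP : 0 ≤ P) : 2 * (lam : ℝ) ≤ rho lam P := by
  unfold rho
  apply Real.le_sqrt_of_sq_le
  nlinarith

theorem roo_thm (hREC : Pool.Agent.H5.FR2.RECStmt) : Pool.Agent.H5.FR2.ROOStmt := by
  classical
  intro d hd lam β r hP u₀ hu h hunit J 𝒳 h𝒳 hcard𝒳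
  have hβ : 1 ≤ β := by
    have := hP.big
    omega
  have hβR : (0 : ℝ) < β := by exact_mod_cast hβ
  have hb : NeZero (β ^ 2) := ⟨by positivity⟩
  have hlam : (1 : ℝ) ≤ lam := by exact_mod_cast hP.lam_pos
  by_contra hcon
  push Not at hcon
  set T := Om (Fin d) (β ^ 2) r h with hT
  let bad : (Fin d → ℝ) → Finset T := fun x =>
    univ.filter (fun ω => ¬ Good x lam β u₀ (wq x univ / ((β : ℝ) ^ 2) ^ h) h
      ((univ : Finset (Fin d)), ω))
  have hcov : (univ : Finset (Fin J → T)) ⊆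
      𝒳.biUnion (fun x => Fintype.piFinset (fun _ : Fin J => bad x)) := by
    intro ω _
    obtain ⟨x, hx, hbad⟩ := hcon ω
    rw [Finset.mem_biUnion]
    refine ⟨x, hx, ?_⟩
    rw [Fintype.mem_piFinset]
    intro j
    exact Finset.mem_filter.2 ⟨Finset.mem_univ _, hbad j⟩
  have hpos : 0 < Fintype.card T := Fintype.card_pos
  have hposR : (0 : ℝ) < Fintype.card T := by exact_mod_cast hpos
  have hbadle : ∀ x ∈ 𝒳, ((bad x).card : ℝ) ≤ 1 / (4 * (β : ℝ) ^ 2) * Fintype.card T := by
    intro x hx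
    obtain ⟨hx1, hx2⟩ := h𝒳 x hx
    have hq0 : 0 ≤ wq x univ := by
      unfold wq
      exact sum_nonneg fun v _ => sq_nonneg _
    have hlev : lev β (wq x univ / ((β : ℝ) ^ 2) ^ h) h = wq x univ := by
      unfold lev
      field_simp
    have hrho : 2 ≤ lam * rho lam (wq x univ) := by
      have := roo_rho (lam := lam) hq0
      nlinarith
    have hR : Rng x lam (u₀ * (β : ℝ) ^ h) (lev β (wq x univ / ((β : ℝ) ^ 2) ^ h) h)
        (univ : Finset (Fin d)) := by
      have hw : 0 ≤ (lam : ℝ) * (u₀ * (β : ℝ) ^ h) := by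
        have : 0 ≤ u₀ := le_trans (by positivity) hu
        positivity
      refine ⟨?_, ?_, ?_⟩
      · rw [hunit, Finset.card_univ, Fintype.card_fin, sub_self, abs_zero]
        exact hw
      · rw [hlev, sub_self, abs_zero]
        linarith
      · rw [hlev]
        unfold ws
        linarith
    have h1 := hREC (Fin d) x hx1 lam β r hP u₀ (wq x univ / ((β : ℝ) ^ 2) ^ h) hu
      (by positivity) h univ hR
    rw [Nat.card_eq_fintype_card, Fintype.card_subtype, Nat.card_eq_fintype_card] at h1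
    refine le_trans (le_of_eq ?_) h1
    congr 2
  have hcard : (Fintype.card T : ℝ) ^ J ≤ ∑ x ∈ 𝒳, ((bad x).card : ℝ) ^ J := by
    have h1 := (Finset.card_le_card hcov).trans Finset.card_biUnion_le
    rw [Finset.card_univ, Fintype.card_fun, Fintype.card_fin] at h1
    have h2 : ∑ x ∈ 𝒳, (Fintype.piFinset (fun _ : Fin J => bad x)).card =
        ∑ x ∈ 𝒳, (bad x).card ^ J := by
      refine Finset.sum_congr rfl fun x _ => ?_
      rw [Fintype.card_piFinset, Finset.prod_const, Finset.card_univ, Fintype.card_fin]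
    rw [h2] at h1
    exact_mod_cast h1
  set y : ℝ := 1 / (4 * (β : ℝ) ^ 2) * Fintype.card T with hy
  have hy0 : 0 < y := by positivity
  have hsum : ∑ x ∈ 𝒳, ((bad x).card : ℝ) ^ J ≤ (𝒳.card : ℝ) * y ^ J := by
    calc _ ≤ ∑ _x ∈ 𝒳, y ^ J :=
          Finset.sum_le_sum fun x hx => pow_le_pow_left₀ (Nat.cast_nonneg _) (hbadle x hx) _
      _ = _ := by rw [Finset.sum_const, nsmul_eq_mul]
  have hfin : (𝒳.card : ℝ) * y ^ J < (Fintype.card T : ℝ) ^ J := by
    have h1 : (𝒳.card : ℝ) < (4 * (β : ℝ) ^ 2) ^ J := by exact_mod_cast hcard𝒳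
    calc (𝒳.card : ℝ) * y ^ J < (4 * (β : ℝ) ^ 2) ^ J * y ^ J :=
          mul_lt_mul_of_pos_right h1 (by positivity)
      _ = (Fintype.card T : ℝ) ^ J := by
          rw [← mul_pow, hy]
          congr 1
          field_simp
  exact absurd (hcard.trans hsum) (not_le.2 hfin)

end Pool.Agent.H5.FR2
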