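import Pool.Agent.H5.FR2.Stmts
import Pool.Agent.H31.FR.CHB

/-!
# URB, module CHB: Chebyshev bound for the sum of the squares of the sums over the parts
-/

set_option autoImplicit false
set_option linter.unusedSectionVars false

namespace Pool.Agent.H5.FR2

open Finset Pool.Agent.H5.FR Pool.Agent.H80

theorem chb_thm : Pool.Agent.H5.FR2.CHBStmt := by
  intro V _ _ b hb x c
  have hbp : 0 < b := by omega
  have hb0 : (0 : ℝ) < b := by positivity
  have hb6 : (6 : ℝ) ≤ b := by exact_mod_cast hb
  set f : (V → Fin b) → ℝ := fun g => ∑ k, (ws x (part c g k)) ^ 2 with hf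
  set T : ℝ := (Fintype.card (V → Fin b) : ℝ) with hT
  have hT0 : 0 ≤ T := by positivity
  set Q : ℝ := wq x c with hQ
  have hQ' : Q = ∑ v ∈ c, x v * x v := by
    rw [hQ, wq]
    exact sum_congr rfl fun v _ => by ring
  have hQ0 : 0 ≤ Q := by
    rw [hQ, wq]
    exact sum_nonneg fun v _ => sq_nonneg _
  set μ : ℝ := Q + (((∑ v ∈ c, x v) ^ 2 - Q) / b) with hμ
  -- the sum over pairs
  have h1 : ∀ g, f g = ∑ p ∈ c ×ˢ c, x p.1 * x p.2 * (if g p.1 = g p.2 then 1 else 0) := by
    intro g
    have h2 : ∀ k, ws x (part c g k) = ∑ v ∈ c, x v * (if g v = k then 1 else 0) := by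
      intro k
      rw [ws, part, sum_filter]
      refine sum_congr rfl fun v _ => ?_
      split_ifs <;> simp
    rw [hf]
    simp only [h2]
    have h3 : ∀ k, (∑ v ∈ c, x v * (if g v = k then 1 else 0)) ^ 2 =
        ∑ p ∈ c ×ˢ c, x p.1 * x p.2 *
          ((if g p.1 = k then 1 else 0) * (if g p.2 = k then 1 else 0)) := by
      intro k
      rw [sq, sum_mul_sum, ← sum_product']
      refine sum_congr rfl fun p _ => ?_
      ring
    rw [sum_congr rfl fun k _ => h3 k, sum_comm]
    refine sum_congr rfl fun p _ => ?_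
    rw [← mul_sum]
    congr 1
    by_cases h : g p.1 = g p.2
    · rw [if_pos h, h]
      simp
    · rw [if_neg h]
      apply sum_eq_zero
      intro k _
      by_cases h' : g p.1 = k
      · rw [if_neg (show g p.2 ≠ k from fun e => h (h'.trans e.symm)), mul_zero]
      · rw [if_neg h', zero_mul]
  have h3' : ∀ F : V × V → ℝ, ∑ p ∈ c ×ˢ c, F p = ∑ p ∈ c.offDiag, F p + ∑ v ∈ c, F (v, v) := by
    intro F
    rw [← diag_union_offDiag, sum_union (disjoint_diag_offDiag _), add_comm, sum_diag]
  have h2 : ∀ g, f g - μ = ∑ p ∈ c.offDiag, x p.1 * x p.2 * chbD g p := by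
    intro g
    have h4 : (∑ v ∈ c, x v) ^ 2 = ∑ p ∈ c.offDiag, x p.1 * x p.2 + Q := by
      rw [sq, sum_mul_sum, ← sum_product', h3' fun p => x p.1 * x p.2, hQ']
    rw [h1, h3', hμ, h4]
    simp only [if_true, mul_one, chbD, mul_sub, sum_sub_distrib]
    rw [← sum_mul, ← hQ']
    ring
  have h3 : ∑ g, (f g - μ) ^ 2 ≤ 2 * Q ^ 2 * (T / b) := by
    have h4 : ∀ g, (f g - μ) ^ 2 = ∑ p ∈ c.offDiag, ∑ q ∈ c.offDiag,
        (x p.1 * x p.2 * (x q.1 * x q.2)) * (chbD g p * chbD g q) := by
      intro g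
      rw [h2, sq, sum_mul_sum]
      refine sum_congr rfl fun p _ => sum_congr rfl fun q _ => ?_
      ring
    rw [sum_congr rfl fun g _ => h4 g, sum_comm]
    have hTb : 0 ≤ T / b := by positivity
    have h5 : ∀ p ∈ c.offDiag, ∑ g : V → Fin b, ∑ q ∈ c.offDiag,
        (x p.1 * x p.2 * (x q.1 * x q.2)) * (chbD g p * chbD g q) ≤
          2 * (T / b) * ((x p.1 * x p.1) * (x p.2 * x p.2)) := by
      intro p hp
      rw [sum_comm]
      have hp' := (mem_offDiag.mp hp).2.2
      calc ∑ q ∈ c.offDiag, ∑ g : V → Fin b,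
            (x p.1 * x p.2 * (x q.1 * x q.2)) * (chbD g p * chbD g q)
          ≤ ∑ q ∈ c.offDiag, ((if q = p then |x p.1 * x p.2 * (x q.1 * x q.2)| * (T / b) else 0) +
              (if q = p.swap then |x p.1 * x p.2 * (x q.1 * x q.2)| * (T / b) else 0)) := by
            refine sum_le_sum fun q hq => ?_
            rw [← mul_sum]
            refine (le_abs_self _).trans ?_
            rw [abs_mul]
            refine (mul_le_mul_of_nonneg_left (chb_cov hbp hp' (mem_offDiag.mp hq).2.2)
              (abs_nonneg _)).trans (le_of_eq ?_)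
            rw [mul_add, mul_ite, mul_ite, mul_zero]
        _ ≤ 2 * (T / b) * ((x p.1 * x p.1) * (x p.2 * x p.2)) := by
            rw [sum_add_distrib, sum_ite_eq' _ p, sum_ite_eq' _ p.swap]
            have e1 : |x p.1 * x p.2 * (x p.1 * x p.2)| = (x p.1 * x p.1) * (x p.2 * x p.2) := by
              rw [abs_of_nonneg (mul_self_nonneg _)]
              ring
            have e2 : |x p.1 * x p.2 * (x p.swap.1 * x p.swap.2)| =
                (x p.1 * x p.1) * (x p.2 * x p.2) := by
              rw [Prod.fst_swap, Prod.snd_swap, mul_comm (x p.2) (x p.1),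
                abs_of_nonneg (mul_self_nonneg _)]
              ring
            rw [e1, e2]
            have e3 : 0 ≤ (x p.1 * x p.1) * (x p.2 * x p.2) * (T / b) :=
              mul_nonneg (mul_nonneg (mul_self_nonneg _) (mul_self_nonneg _)) hTb
            split_ifs <;> nlinarith
    refine (sum_le_sum h5).trans ?_
    rw [← mul_sum]
    have h6 : ∑ p ∈ c.offDiag, (x p.1 * x p.1) * (x p.2 * x p.2) ≤ Q ^ 2 := by
      have h7 : Q ^ 2 = ∑ p ∈ c ×ˢ c, (x p.1 * x p.1) * (x p.2 * x p.2) := by
        rw [hQ', sq, sum_mul_sum, ← sum_product']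
      rw [h7, h3']
      have : 0 ≤ ∑ v ∈ c, (x (v, v).1 * x (v, v).1) * (x (v, v).2 * x (v, v).2) :=
        sum_nonneg fun v _ => mul_nonneg (mul_self_nonneg _) (mul_self_nonneg _)
      linarith
    calc 2 * (T / b) * ∑ p ∈ c.offDiag, (x p.1 * x p.1) * (x p.2 * x p.2)
        ≤ 2 * (T / b) * Q ^ 2 := mul_le_mul_of_nonneg_left h6 (by positivity)
      _ = _ := by ring
  rcases hQ0.eq_or_lt with h0 | h0
  · have h4 : (univ.filter (fun g : V → Fin b => f g < Q / 2)) = ∅ := by
      rw [filter_eq_empty_iff]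
      intro g _
      rw [← h0, not_lt, zero_div]
      exact sum_nonneg fun k _ => sq_nonneg _
    rw [h4, card_empty, Nat.cast_zero]
    positivity
  have h4 : ((univ.filter (fun g : V → Fin b => f g < Q / 2)).card : ℝ) *
      (Q ^ 2 / 9) ≤ ∑ g, (f g - μ) ^ 2 := by
    rw [← nsmul_eq_mul, ← sum_const]
    calc ∑ g ∈ univ.filter (fun g : V → Fin b => f g < Q / 2), (Q ^ 2 / 9)
        ≤ ∑ g ∈ univ.filter (fun g : V → Fin b => f g < Q / 2), (f g - μ) ^ 2 := by
          refine sum_le_sum fun g hg => ?_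
          have hg' := (mem_filter.mp hg).2
          have h5 : Q - Q / 6 ≤ μ := by
            have h6 : -(Q / 6 : ℝ) ≤ ((∑ v ∈ c, x v) ^ 2 - Q) / b := by
              rw [le_div_iff₀ hb0]
              have h7 : Q ≤ Q / 6 * b := by
                have := mul_le_mul_of_nonneg_left hb6 (show 0 ≤ Q / 6 by positivity)
                linarith
              have h8 := sq_nonneg (∑ v ∈ c, x v)
              linarith
            rw [hμ]
            linarith
          have h6 : Q / 3 ≤ μ - f g := by linarith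
          calc Q ^ 2 / 9 = (Q / 3) ^ 2 := by ring
            _ ≤ (μ - f g) ^ 2 := pow_le_pow_left₀ (by positivity) h6 2
            _ = (f g - μ) ^ 2 := by ring
      _ ≤ ∑ g, (f g - μ) ^ 2 := by
          apply sum_le_sum_of_subset_of_nonneg (filter_subset _ _)
          intro g _ _
          exact sq_nonneg _
  have h5 := h4.trans h3
  have h6 : ((univ.filter (fun g : V → Fin b => f g < Q / 2)).card : ℝ) ≤
      (2 * Q ^ 2 * (T / b)) / (Q ^ 2 / 9) := by
    rw [le_div_iff₀ (by positivity)]
    exact h5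
  refine h6.trans (le_of_eq ?_)
  field_simp
  ring

end Pool.Agent.H5.FR2
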